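import Pool.Agent.W488.IW.Stm

set_option autoImplicit false

namespace Pool.Agent.W389.IW.Tail

open MeasureTheory Set Filter Topology
open Pool.Agent.W488.IW

variable {H : Type} [NormedAddCommGroup H] [InnerProductSpace ℂ H] [CompleteSpace H]

lemma pr_sub (D : Dat H) (Λ : Finset Idx) (v w : H) :
    pr D Λ (v - w) = pr D Λ v - pr D Λ w := by
  simp only [pr, inner_sub_right, sub_smul, Finset.sum_sub_distrib]

lemma continuous_pr (D : Dat H) (Λ : Finset Idx) : Continuous (pr D Λ) := by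
  unfold pr
  fun_prop

lemma norm_sub_pr (D : Dat H) (Λ : Finset Idx) (v : H) : ‖v - pr D Λ v‖ ≤ ‖v‖ := by
  have ho := D.e.orthonormal
  have h1 : inner ℂ (v - pr D Λ v) (pr D Λ v) = 0 := by
    rw [← inner_conj_symm]
    have : inner ℂ (pr D Λ v) (v - pr D Λ v) = 0 := by
      conv_lhs => enter [2]; unfold pr
      rw [sum_inner]
      apply Finset.sum_eq_zero
      intro k hk
      rw [inner_smul_left, inner_sub_right]
      unfold pr
      rw [ho.inner_right_sum _ hk]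
      simp
    rw [this]
    simp
  have h2 := norm_add_sq_eq_norm_sq_add_norm_sq_of_inner_eq_zero (v - pr D Λ v) (pr D Λ v) h1
  rw [sub_add_cancel] at h2
  have h3 : 0 ≤ ‖pr D Λ v‖ * ‖pr D Λ v‖ := by positivity
  have h4 : ‖v - pr D Λ v‖ * ‖v - pr D Λ v‖ ≤ ‖v‖ * ‖v‖ := by linarith
  exact le_of_sq_le_sq (by nlinarith) (norm_nonneg _)

lemma tendsto_pr (D : Dat H) (v : H) (Nn : ℕ → ℕ) (hN : StrictMono Nn) :
    Tendsto (fun j => pr D (box (Nn j)) v) atTop (𝓝 v) := by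
  have h1 : HasSum (fun i => (inner ℂ (D.e i) v : ℂ) • D.e i) v := by
    have := D.e.hasSum_repr v
    simpa [HilbertBasis.repr_apply_apply] using this
  have h2 : Tendsto (fun j => box (Nn j)) atTop atTop := by
    apply Filter.tendsto_atTop_finset_of_monotone
    · intro i j hij
      have h3 : (Nn i : ℤ) ≤ Nn j := by exact_mod_cast hN.monotone hij
      unfold box
      apply Finset.product_subset_product <;>
        exact Finset.Icc_subset_Icc (by linarith) h3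
    · intro k
      refine ⟨k.1.natAbs + k.2.natAbs, ?_⟩
      have h3 : k.1.natAbs + k.2.natAbs ≤ Nn (k.1.natAbs + k.2.natAbs) := hN.id_le _
      unfold box
      simp only [Finset.mem_product, Finset.mem_Icc]
      omega
  exact h1.comp h2

/-- the action of the coefficient is jointly continuous -/
lemma cont_act (D : Dat H) (S : H → H → H →L[ℂ] H) (h1 : ∀ a b, ‖S a b‖ ≤ 1)
    (L : ℝ) (h2 : ∀ a b a' b' k, ‖S a b (D.e k) - S a' b' (D.e k)‖ ≤ L * (‖a - a'‖ + ‖b - b'‖)) :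
    Continuous (fun x : H × H × H => S x.1 x.2.1 x.2.2) := by
  rw [continuous_iff_continuousAt]
  rintro ⟨a, b, p⟩
  rw [ContinuousAt, tendsto_iff_norm_sub_tendsto_zero]
  have key : ∀ q : H, Tendsto (fun x : H × H × H => ‖S x.1 x.2.1 q - S a b q‖)
      (𝓝 (a, b, p)) (𝓝 0) := by
    intro q
    rw [Metric.tendsto_nhds]
    intro ε hε
    have h3 : ∀ᶠ Λ in atTop, ‖pr D Λ q - q‖ < ε / 4 := by
      have h4 : HasSum (fun i => (inner ℂ (D.e i) q : ℂ) • D.e i) q := by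
        have := D.e.hasSum_repr q
        simpa [HilbertBasis.repr_apply_apply] using this
      have h5 := tendsto_iff_norm_sub_tendsto_zero.1 h4
      exact (h5.eventually (gt_mem_nhds (by positivity)))
    obtain ⟨Λ, hΛ⟩ := h3.exists
    have h4 : Tendsto (fun x : H × H × H => ∑ k ∈ Λ, ‖(inner ℂ (D.e k) q : ℂ)‖ *
        (L * (‖x.1 - a‖ + ‖x.2.1 - b‖))) (𝓝 (a, b, p)) (𝓝 0) := by
      have h5 : Continuous (fun x : H × H × H => ∑ k ∈ Λ, ‖(inner ℂ (D.e k) q : ℂ)‖ *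
        (L * (‖x.1 - a‖ + ‖x.2.1 - b‖))) := by fun_prop
      have h6 := h5.tendsto (a, b, p)
      simpa using h6
    have h5 := h4.eventually (gt_mem_nhds (show (0 : ℝ) < ε / 2 by positivity))
    filter_upwards [h5] with x hx
    rw [Real.dist_eq, sub_zero, abs_of_nonneg (norm_nonneg _)]
    have h6 : ‖S x.1 x.2.1 (pr D Λ q) - S a b (pr D Λ q)‖ < ε / 2 := by
      refine lt_of_le_of_lt ?_ hx
      unfold pr
      rw [map_sum, map_sum, ← Finset.sum_sub_distrib]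
      refine (norm_sum_le _ _).trans (Finset.sum_le_sum ?_)
      intro k _
      rw [map_smul, map_smul, ← smul_sub, norm_smul]
      exact mul_le_mul_of_nonneg_left (h2 _ _ _ _ _) (norm_nonneg _)
    have h7 : S x.1 x.2.1 q - S a b q = (S x.1 x.2.1 (pr D Λ q) - S a b (pr D Λ q))
        - S x.1 x.2.1 (pr D Λ q - q) + S a b (pr D Λ q - q) := by
      rw [map_sub, map_sub]; abel
    rw [h7]
    have h8 : ‖S x.1 x.2.1 (pr D Λ q - q)‖ ≤ ‖pr D Λ q - q‖ := by
      refine ((S x.1 x.2.1).le_opNorm _).trans ?_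
      have := mul_le_mul_of_nonneg_right (h1 x.1 x.2.1) (norm_nonneg (pr D Λ q - q))
      linarith
    have h9 : ‖S a b (pr D Λ q - q)‖ ≤ ‖pr D Λ q - q‖ := by
      refine ((S a b).le_opNorm _).trans ?_
      have := mul_le_mul_of_nonneg_right (h1 a b) (norm_nonneg (pr D Λ q - q))
      linarith
    refine (norm_add_le _ _).trans_lt ?_
    have h10 := norm_sub_le (S x.1 x.2.1 (pr D Λ q) - S a b (pr D Λ q))
      (S x.1 x.2.1 (pr D Λ q - q))
    linarith
  have h3 := key p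
  have h4 : Tendsto (fun x : H × H × H => ‖x.2.2 - p‖) (𝓝 (a, b, p)) (𝓝 0) := by
    have h5 : Continuous (fun x : H × H × H => ‖x.2.2 - p‖) := by fun_prop
    simpa using h5.tendsto (a, b, p)
  have h5 := h4.add h3
  rw [add_zero] at h5
  refine squeeze_zero (fun _ => norm_nonneg _) ?_ h5
  intro x
  have h6 : S x.1 x.2.1 x.2.2 - S a b p = S x.1 x.2.1 (x.2.2 - p) + (S x.1 x.2.1 p - S a b p) := by
    rw [map_sub]; abel
  dsimp only
  rw [h6]
  refine (norm_add_le _ _).trans ?_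
  have h8 : ‖S x.1 x.2.1 (x.2.2 - p)‖ ≤ ‖x.2.2 - p‖ := by
    refine ((S x.1 x.2.1).le_opNorm _).trans ?_
    have := mul_le_mul_of_nonneg_right (h1 x.1 x.2.1) (norm_nonneg (x.2.2 - p))
    linarith
  linarith

lemma cont_Vf (D : Dat H) :
    Continuous (fun x : H × H × H × H × H => Vf D x.1 x.2.1 x.2.2.1 x.2.2.2.1 x.2.2.2.2) := by
  have h1 := cont_act D D.s D.h1 D.L D.h2
  have h2 := cont_act D (fun a b => (D.s a b).adjoint)
    (fun a b => by rw [LinearIsometryEquiv.norm_map]; exact D.h1 a b) D.L D.h3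
  unfold Vf
  refine Continuous.add (Continuous.add (by fun_prop) ?_) ?_
  · exact h1.comp (f := fun x : H × H × H × H × H => (x.1, x.2.1, x.2.2.1)) (by fun_prop)
  · exact h2.comp (f := fun x : H × H × H × H × H => (x.1, x.2.1, x.2.2.2.2)) (by fun_prop)

lemma norm_Vf (D : Dat H) (a b p q r : H) :
    ‖Vf D a b p q r‖ ≤ D.n * ‖q‖ + ‖p‖ + ‖r‖ := by
  unfold Vf
  have hn := D.hn
  have h1 : ‖(D.n : ℂ) • q‖ = D.n * ‖q‖ := by
    rw [norm_smul, Complex.norm_real, Real.norm_eq_abs, abs_of_pos (by linarith)]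
  have h2 : ‖D.s a b p‖ ≤ ‖p‖ := by
    refine ((D.s a b).le_opNorm _).trans ?_
    have := mul_le_mul_of_nonneg_right (D.h1 a b) (norm_nonneg p)
    linarith
  have h3 : ‖(D.s a b).adjoint r‖ ≤ ‖r‖ := by
    refine ((D.s a b).adjoint.le_opNorm _).trans ?_
    have h4 : ‖(D.s a b).adjoint‖ ≤ 1 := by
      rw [LinearIsometryEquiv.norm_map]; exact D.h1 a b
    have := mul_le_mul_of_nonneg_right h4 (norm_nonneg r)
    linarith
  refine (norm_add_le _ _).trans ?_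
  have h5 := norm_add_le ((D.n : ℂ) • q) (D.s a b p)
  linarith

lemma m2_nonneg (k : Idx) : 0 ≤ m2 k := by unfold m2; positivity

lemma norm_ka_sq (k : Idx) : ‖ka k‖ ^ 2 = m2 k := by
  have h : ka k = ((Real.pi * k.2 : ℝ) : ℂ) + ((Real.pi * k.1 : ℝ) : ℂ) * Complex.I := by
    unfold ka
    push_cast
    linear_combination (-(Real.pi : ℂ) * k.2) * Complex.I_sq
  rw [h, ← Complex.normSq_eq_norm_sq, Complex.normSq_add_mul_I]
  unfold m2; ring

lemma norm_kb_sq (k : Idx) : ‖kb k‖ ^ 2 = m2 k := by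
  have h : kb k = ((-(Real.pi * k.2) : ℝ) : ℂ) + ((Real.pi * k.1 : ℝ) : ℂ) * Complex.I := by
    unfold kb
    push_cast
    linear_combination ((Real.pi : ℂ) * k.2) * Complex.I_sq
  rw [h, ← Complex.normSq_eq_norm_sq, Complex.normSq_add_mul_I]
  unfold m2; ring

lemma m2_zero_or (k : Idx) : m2 k = 0 ∨ 1 ≤ m2 k := by
  by_cases h : k.1 = 0 ∧ k.2 = 0
  · left; unfold m2; rw [h.1, h.2]; simp
  · right
    have h1 : (1 : ℤ) ≤ k.1 ^ 2 + k.2 ^ 2 := by
      by_contra hc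
      apply h
      constructor <;> nlinarith [sq_nonneg k.1, sq_nonneg k.2]
    have h2 : (1 : ℝ) ≤ (k.1 : ℝ) ^ 2 + (k.2 : ℝ) ^ 2 := by exact_mod_cast h1
    have h3 : (1 : ℝ) ≤ Real.pi ^ 2 := by nlinarith [Real.pi_gt_three]
    unfold m2; nlinarith

lemma le_of_sq (k : Idx) (x : ℝ) (hx : 0 ≤ x) (h : x ^ 2 = m2 k) : x ≤ m2 k := by
  rcases m2_zero_or k with h1 | h1
  · rw [h1] at h ⊢
    nlinarith
  · nlinarith

lemma norm_ka_le (k : Idx) : ‖ka k‖ ≤ m2 k := le_of_sq k _ (norm_nonneg _) (norm_ka_sq k)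
lemma norm_kb_le (k : Idx) : ‖kb k‖ ≤ m2 k := le_of_sq k _ (norm_nonneg _) (norm_kb_sq k)

lemma norm_p (k : Idx) : ‖ka k ^ 2‖ ≤ m2 k := by rw [norm_pow, norm_ka_sq]
lemma norm_r (k : Idx) : ‖kb k ^ 2‖ ≤ m2 k := by rw [norm_pow, norm_kb_sq]
lemma norm_q (k : Idx) : ‖ka k * kb k‖ ≤ m2 k := by
  rw [norm_mul]
  nlinarith [norm_ka_sq k, norm_kb_sq k, sq_nonneg (‖ka k‖ - ‖kb k‖)]

/-- norm of an infinite Fourier sum -/
lemma norm_smI (D : Dat H) (w c : Idx → ℂ) (hw : ∀ k, ‖w k‖ ≤ m2 k)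
    (hs : Summable fun k => m2 k ^ 2 * ‖c k‖ ^ 2) :
    ‖smI D w c‖ ^ 2 ≤ ∑' k, m2 k ^ 2 * ‖c k‖ ^ 2 := by
  have h0 : ∀ k, ‖w k * c k‖ ^ 2 ≤ m2 k ^ 2 * ‖c k‖ ^ 2 := by
    intro k
    rw [norm_mul, mul_pow]
    exact mul_le_mul_of_nonneg_right (pow_le_pow_left₀ (norm_nonneg _) (hw k) 2) (by positivity)
  have h1 : Summable fun k => ‖w k * c k‖ ^ 2 :=
    Summable.of_nonneg_of_le (fun k => by positivity) h0 hs
  have h2 : Memℓp (fun k => w k * c k) 2 := by
    apply memℓp_gen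
    simpa using h1
  have h3 := D.e.hasSum_repr_symm ⟨fun k => w k * c k, h2⟩
  have h4 : smI D w c = D.e.repr.symm ⟨fun k => w k * c k, h2⟩ := h3.tsum_eq
  rw [h4, LinearIsometryEquiv.norm_map]
  have h5 := lp.norm_rpow_eq_tsum (p := 2) (by norm_num)
    (⟨fun k => w k * c k, h2⟩ : lp (fun _ : Idx => ℂ) 2)
  simp only [ENNReal.toReal_ofNat, Real.rpow_ofNat] at h5
  rw [h5]
  exact h1.tsum_le_tsum h0 hs

lemma norm_VI (D : Dat H) (c : Idx → ℂ) (hs : Summable fun k => m2 k ^ 2 * ‖c k‖ ^ 2) :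
    ‖VI D c‖ ^ 2 ≤ (D.n + 2) ^ 2 * ∑' k, m2 k ^ 2 * ‖c k‖ ^ 2 := by
  have hn := D.hn
  have h1 := norm_smI D (fun k => ka k ^ 2) c norm_p hs
  have h2 := norm_smI D (fun k => ka k * kb k) c norm_q hs
  have h3 := norm_smI D (fun k => kb k ^ 2) c norm_r hs
  set Q := ∑' k, m2 k ^ 2 * ‖c k‖ ^ 2 with hQ
  have hQ0 : 0 ≤ Q := tsum_nonneg (fun k => by positivity)
  have h4 := norm_Vf D (smI D ka c) (smI D kb c) (smI D (fun k => ka k ^ 2) c)
    (smI D (fun k => ka k * kb k) c) (smI D (fun k => kb k ^ 2) c)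
  have e1 : ‖smI D (fun k => ka k ^ 2) c‖ ≤ Real.sqrt Q := Real.le_sqrt_of_sq_le h1
  have e2 : ‖smI D (fun k => ka k * kb k) c‖ ≤ Real.sqrt Q := Real.le_sqrt_of_sq_le h2
  have e3 : ‖smI D (fun k => kb k ^ 2) c‖ ≤ Real.sqrt Q := Real.le_sqrt_of_sq_le h3
  have h5 : ‖VI D c‖ ≤ (D.n + 2) * Real.sqrt Q := by
    unfold VI
    have := mul_le_mul_of_nonneg_left e2 (show 0 ≤ D.n by linarith)
    linarith
  calc ‖VI D c‖ ^ 2 ≤ ((D.n + 2) * Real.sqrt Q) ^ 2 := pow_le_pow_left₀ (norm_nonneg _) h5 2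
    _ = (D.n + 2) ^ 2 * Q := by rw [mul_pow, Real.sq_sqrt hQ0]

lemma meas_VI (D : Dat H) (T : ℝ) (cl : ℝ → Idx → ℂ)
    (h : ∀ w : Idx → ℂ, (∀ k, ‖w k‖ ≤ m2 k) →
      AEStronglyMeasurable (fun t => smI D w (cl t)) (volume.restrict (Icc 0 T))) :
    AEStronglyMeasurable (fun t => VI D (cl t)) (volume.restrict (Icc 0 T)) := by
  unfold VI
  exact (cont_Vf D).comp_aestronglyMeasurable ((h _ norm_ka_le).prodMk ((h _ norm_kb_le).prodMk
    ((h _ norm_p).prodMk ((h _ norm_q).prodMk (h _ norm_r)))))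

lemma cont_VN (D : Dat H) (N : ℕ) (T : ℝ) (c0 : Idx → ℂ) (c : ℝ → Idx → ℂ)
    (h : Sol D N T c0 c) (Λ : Finset Idx) : ContinuousOn (fun t => VN D Λ (c t)) (Icc 0 T) := by
  have h1 : ∀ k, ContinuousOn (fun t => c t k) (Icc 0 T) := by
    intro k
    by_cases hk : k ∈ box N
    · intro t ht
      exact (h.2.2 k hk t ht).continuousWithinAt
    · have : (fun t => c t k) = fun _ => 0 := by
        funext t; exact h.2.1 t k hk
      rw [this]; exact continuousOn_const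
  have h2 : ∀ w : Idx → ℂ, ContinuousOn (fun t => sm D Λ w (c t)) (Icc 0 T) := by
    intro w
    unfold sm
    refine continuousOn_finsetSum _ (fun k _ => ?_)
    exact (continuousOn_const.mul (h1 k)).smul continuousOn_const
  unfold VN
  exact (cont_Vf D).comp_continuousOn ((h2 _).prodMk ((h2 _).prodMk
    ((h2 _).prodMk ((h2 _).prodMk (h2 _)))))

theorem main (_hEN : S_EN) (hCOMP : S_COMP) (hLIM : S_LIM) (hSTR : S_STR) : S_TAIL := by
  intro H _ _ _ D T c0 Nn cs hT hNn hSol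
  obtain ⟨ψ1, hψ1, cl, hConv⟩ := hCOMP H D T c0 Nn cs hT hNn hSol
  obtain ⟨ψ2, hψ2, hlim⟩ := hSTR H D T c0 _ _ cl hConv
  obtain ⟨hsum, hint, hmeas, -, -⟩ := hLIM H D T c0 _ _ cl hConv
  refine ⟨fun j => ψ1 (ψ2 j), hψ1.comp hψ2, ?_⟩
  set μ : Measure ℝ := volume.restrict (Icc 0 T) with hμ
  have mV : AEStronglyMeasurable (fun t => VI D (cl t)) μ := meas_VI D T cl hmeas
  have hb : ∀ᵐ t ∂μ, ‖VI D (cl t)‖ ^ 2 ≤ (D.n + 2) ^ 2 * ∑' k, m2 k ^ 2 * ‖cl t k‖ ^ 2 := by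
    filter_upwards [hsum] with t ht using norm_VI D (cl t) ht
  have hbi : Integrable (fun t => (D.n + 2) ^ 2 * ∑' k, m2 k ^ 2 * ‖cl t k‖ ^ 2) μ :=
    hint.const_mul _
  have iV : Integrable (fun t => ‖VI D (cl t)‖ ^ 2) μ := by
    refine Integrable.mono' hbi (mV.norm.pow 2) ?_
    filter_upwards [hb] with t ht
    rw [Real.norm_eq_abs, abs_of_nonneg (by positivity)]
    exact ht
  -- the tail of the limit
  have t1 : Tendsto (fun j => ∫ t in Icc 0 T, ‖VI D (cl t) -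
      pr D (box (Nn (ψ1 (ψ2 j)))) (VI D (cl t))‖ ^ 2) atTop (𝓝 0) := by
    suffices hh : Tendsto (fun j => ∫ t in Icc 0 T, ‖VI D (cl t) -
      pr D (box (Nn (ψ1 (ψ2 j)))) (VI D (cl t))‖ ^ 2) atTop
      (𝓝 (∫ t in Icc 0 T, (fun _ => (0 : ℝ)) t)) by simpa using hh
    apply tendsto_integral_of_dominated_convergence (fun t => ‖VI D (cl t)‖ ^ 2)
    · intro j
      exact ((mV.sub ((continuous_pr D _).comp_aestronglyMeasurable mV)).norm.pow 2)
    · exact iV
    · intro j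
      filter_upwards with t
      rw [Real.norm_eq_abs, abs_of_nonneg (by positivity)]
      exact pow_le_pow_left₀ (norm_nonneg _) (norm_sub_pr D _ _) 2
    · filter_upwards with t
      have h1 := tendsto_pr D (VI D (cl t)) (fun j => Nn (ψ1 (ψ2 j)))
        (hNn.comp (hψ1.comp hψ2))
      have h2 := (((tendsto_const_nhds (x := VI D (cl t))).sub h1).norm).pow 2
      simpa using h2
  have t2 := (hlim.const_mul 2).add (t1.const_mul 2)
  simp only [mul_zero, add_zero] at t2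
  refine squeeze_zero (fun j => integral_nonneg (fun t => by positivity)) ?_ t2
  intro j
  have mj : ContinuousOn (fun t => VN D (box (Nn (ψ1 (ψ2 j)))) (cs (ψ1 (ψ2 j)) t)) (Icc 0 T) :=
    cont_VN D _ T c0 _ (hSol _) _
  have mj' : AEStronglyMeasurable
      (fun t => VN D (box (Nn (ψ1 (ψ2 j)))) (cs (ψ1 (ψ2 j)) t)) μ :=
    mj.aestronglyMeasurable measurableSet_Icc
  have ij : Integrable (fun t => ‖VN D (box (Nn (ψ1 (ψ2 j)))) (cs (ψ1 (ψ2 j)) t)‖ ^ 2) μ :=
    ((mj.norm.pow 2).integrableOn_compact isCompact_Icc)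
  have i1 : Integrable (fun t => ‖VN D (box (Nn (ψ1 (ψ2 j)))) (cs (ψ1 (ψ2 j)) t)
      - VI D (cl t)‖ ^ 2) μ := by
    refine Integrable.mono' ((ij.const_mul 2).add (iV.const_mul 2)) ((mj'.sub mV).norm.pow 2) ?_
    filter_upwards with t
    rw [Real.norm_eq_abs, abs_of_nonneg (by positivity)]
    simp only [Pi.add_apply]
    have h1 := norm_sub_le (VN D (box (Nn (ψ1 (ψ2 j)))) (cs (ψ1 (ψ2 j)) t)) (VI D (cl t))
    have h2 := pow_le_pow_left₀ (norm_nonneg _) h1 2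
    nlinarith [sq_nonneg (‖VN D (box (Nn (ψ1 (ψ2 j)))) (cs (ψ1 (ψ2 j)) t)‖ - ‖VI D (cl t)‖)]
  have i2 : Integrable (fun t => ‖VI D (cl t) -
      pr D (box (Nn (ψ1 (ψ2 j)))) (VI D (cl t))‖ ^ 2) μ := by
    refine Integrable.mono' iV
      ((mV.sub ((continuous_pr D _).comp_aestronglyMeasurable mV)).norm.pow 2) ?_
    filter_upwards with t
    rw [Real.norm_eq_abs, abs_of_nonneg (by positivity)]
    exact pow_le_pow_left₀ (norm_nonneg _) (norm_sub_pr D _ _) 2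
  rw [← integral_const_mul, ← integral_const_mul, ← integral_add (i1.const_mul 2) (i2.const_mul 2)]
  refine integral_mono_of_nonneg ?_ ((i1.const_mul 2).add (i2.const_mul 2)) ?_
  · filter_upwards with t
    simp only [Pi.zero_apply]
    positivity
  · filter_upwards with t
    set A := VN D (box (Nn (ψ1 (ψ2 j)))) (cs (ψ1 (ψ2 j)) t)
    set B := VI D (cl t)
    set Λ := box (Nn (ψ1 (ψ2 j)))
    have h1 : A - pr D Λ A = ((A - B) - pr D Λ (A - B)) + (B - pr D Λ B) := by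
      rw [pr_sub]; abel
    have h2 : ‖A - pr D Λ A‖ ≤ ‖A - B‖ + ‖B - pr D Λ B‖ := by
      rw [h1]
      refine (norm_add_le _ _).trans ?_
      have := norm_sub_pr D Λ (A - B)
      linarith
    have h3 := pow_le_pow_left₀ (norm_nonneg _) h2 2
    nlinarith [sq_nonneg (‖A - B‖ - ‖B - pr D Λ B‖)]

end Pool.Agent.W389.IW.Tail
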